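import Pool.Agent.Q264.HM.Stm

/-!
# Free subgroups of finite index of finitely generated groups have finite rank
-/

set_option autoImplicit false

namespace Pool.Agent.Q265.HM

open Pool.Agent.Q264.HM

/-- A finitely generated free group has finitely many free generators. -/
lemma finite_of_fg (X : Type) (h : Group.FG (FreeGroup X)) : Finite X := by
  classical
  obtain ⟨S, hS⟩ := h.out
  let X₀ : Set X := {x | ∃ s ∈ S, x ∈ s.toWord.map Prod.fst}
  have hX₀ : X₀.Finite := by
    have : X₀ = ⋃ s ∈ S, {x | x ∈ s.toWord.map Prod.fst} := by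
      ext x
      simp [X₀]
    rw [this]
    exact S.finite_toSet.biUnion fun s _ => List.finite_toSet _
  let φ : FreeGroup X →* Multiplicative ℤ :=
    FreeGroup.lift fun y => if y ∈ X₀ then 1 else Multiplicative.ofAdd 1
  have h1 : ∀ s ∈ S, φ s = 1 := by
    intro s hs
    rw [← FreeGroup.mk_toWord (x := s)]
    simp only [φ, FreeGroup.lift_mk]
    apply List.prod_eq_one
    intro z hz
    obtain ⟨p, hp, rfl⟩ := List.mem_map.1 hz
    have h2 : p.1 ∈ X₀ := ⟨s, hs, List.mem_map.2 ⟨p, hp, rfl⟩⟩
    cases p.2 <;> simp [h2]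
  have h3 : (⊤ : Subgroup (FreeGroup X)) ≤ φ.ker := by
    rw [← hS, Subgroup.closure_le]
    exact fun s hs => MonoidHom.mem_ker.2 (h1 s hs)
  have h4 : ∀ x : X, x ∈ X₀ := by
    intro x
    by_contra hx
    have h5 : φ (FreeGroup.of x) = 1 := MonoidHom.mem_ker.1 (h3 (Subgroup.mem_top _))
    simp only [φ, FreeGroup.lift_apply_of, hx, if_false] at h5
    have h6 := congrArg Multiplicative.toAdd h5
    simp at h6
  have h7 : X₀ = Set.univ := Set.eq_univ_of_forall h4
  rw [h7] at hX₀
  exact Set.finite_univ_iff.1 hX₀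

theorem t_FING : S_FING := by
  classical
  intro H _ k x hx F _ _
  have hfg : Group.FG H := ⟨⟨Finset.univ.image x, by
    rw [Finset.coe_image, Finset.coe_univ, Set.image_univ]
    exact hx⟩⟩
  have hF : Group.FG F := Subgroup.fg_of_index_ne_zero F
  let e : F ≃* FreeGroup (IsFreeGroup.Generators F) := IsFreeGroup.toFreeGroup F
  have hX : Group.FG (FreeGroup (IsFreeGroup.Generators F)) :=
    Group.fg_of_surjective (f := e.toMonoidHom) e.surjective
  have := finite_of_fg _ hX
  obtain ⟨n, ⟨c⟩⟩ := Finite.exists_equiv_fin (IsFreeGroup.Generators F)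
  exact ⟨n, ⟨e.trans (FreeGroup.freeGroupCongr c)⟩⟩

end Pool.Agent.Q265.HM
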